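import Pool.Agent.W440.PK.Tail7

/-! PK-CM: midpoint rule for Gaussian cells. -/

set_option autoImplicit false

namespace Pool.Agent.W440.PK

open Finset W841.PK
open scoped Classical

noncomputable section

/-- integrating a power bound -/
theorem int_bound {f f' : ℝ → ℝ} (h0 : f 0 = 0) (hd : ∀ x, HasDerivAt f (f' x) x) (C : ℝ) (k : ℕ)
    (hb : ∀ x, 0 ≤ x → |f' x| ≤ C * x ^ k) :
    ∀ x, 0 ≤ x → |f x| ≤ C / (k + 1) * x ^ (k + 1) := by
  have hpow : ∀ x : ℝ, HasDerivAt (fun x : ℝ => C / (k + 1) * x ^ (k + 1)) (C * x ^ k) x := by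
    intro x
    have h := (hasDerivAt_pow (k + 1) x).const_mul (C / (k + 1))
    have e : C / (k + 1) * (((k + 1 : ℕ) : ℝ) * x ^ (k + 1 - 1)) = C * x ^ k := by
      rw [Nat.add_sub_cancel]
      push_cast
      field_simp
    rw [e] at h
    exact h
  have key : ∀ g g' : ℝ → ℝ, g 0 = 0 → (∀ x, HasDerivAt g (g' x) x) → (∀ x, 0 ≤ x → 0 ≤ g' x) →
      ∀ x, 0 ≤ x → 0 ≤ g x := by
    intro g g' hg0 hgd hg' x hx
    have hmono : MonotoneOn g (Set.Ici 0) := by
      apply monotoneOn_of_deriv_nonneg (convex_Ici _)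
      · exact fun x _ => (hgd x).continuousAt.continuousWithinAt
      · exact fun x _ => (hgd x).differentiableAt.differentiableWithinAt
      · intro x hx
        rw [interior_Ici] at hx
        rw [(hgd x).deriv]
        exact hg' x (le_of_lt hx)
    have := hmono (show (0 : ℝ) ∈ Set.Ici 0 from Set.mem_Ici.2 le_rfl) (Set.mem_Ici.2 hx) hx
    rwa [hg0] at this
  intro x hx
  rw [abs_le]
  constructor
  · have := key (fun x => C / (k + 1) * x ^ (k + 1) + f x) (fun x => C * x ^ k + f' x)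
      (by simp [h0]) (fun x => (hpow x).add (hd x))
      (fun x hx => by linarith [(abs_le.1 (hb x hx)).1]) x hx
    linarith
  · have := key (fun x => C / (k + 1) * x ^ (k + 1) - f x) (fun x => C * x ^ k - f' x)
      (by simp [h0]) (fun x => (hpow x).sub (hd x))
      (fun x hx => by linarith [(abs_le.1 (hb x hx)).2]) x hx
    linarith

def g2 (x : ℝ) : ℝ := (x ^ 2 - 1) * gd x
def g3 (x : ℝ) : ℝ := (3 * x - x ^ 3) * gd x
def g4 (x : ℝ) : ℝ := (x ^ 4 - 6 * x ^ 2 + 3) * gd x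

theorem g1_deriv (x : ℝ) : HasDerivAt (fun x => -x * gd x) (g2 x) x := by
  have h1 : HasDerivAt (fun x : ℝ => -x) (-1) x := (hasDerivAt_id x).neg
  have h := h1.mul (gd_deriv x)
  have e : -1 * gd x + -x * (-x * gd x) = g2 x := by
    unfold g2
    ring
  rw [e] at h
  exact h

theorem g2_deriv (x : ℝ) : HasDerivAt g2 (g3 x) x := by
  have h1 : HasDerivAt (fun x : ℝ => x ^ 2 - 1) (2 * x) x := by
    have h := (hasDerivAt_pow 2 x).sub_const 1
    have e : ((2 : ℕ) : ℝ) * x ^ (2 - 1) = 2 * x := by norm_num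
    rw [e] at h
    exact h
  have h := h1.mul (gd_deriv x)
  have e : 2 * x * gd x + (x ^ 2 - 1) * (-x * gd x) = g3 x := by
    unfold g3
    ring
  rw [e] at h
  exact h

theorem g3_deriv (x : ℝ) : HasDerivAt g3 (g4 x) x := by
  have h1 : HasDerivAt (fun x : ℝ => 3 * x - x ^ 3) (3 - 3 * x ^ 2) x := by
    have h := ((hasDerivAt_id x).const_mul 3).sub (hasDerivAt_pow 3 x)
    have e : (3 : ℝ) * 1 - ((3 : ℕ) : ℝ) * x ^ (3 - 1) = 3 - 3 * x ^ 2 := by norm_num
    rw [e] at h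
    exact h
  have h := h1.mul (gd_deriv x)
  have e : (3 - 3 * x ^ 2) * gd x + (3 * x - x ^ 3) * (-x * gd x) = g4 x := by
    unfold g4
    ring
  rw [e] at h
  exact h

theorem g4_bound (hg : S_Gauss) (x : ℝ) : |g4 x| ≤ 6 / 5 := by
  have h0 : gd 0 ≤ 2 / 5 := (hg.2.1 0).2
  have hgd : gd x = gd 0 * Real.exp (-x ^ 2 / 2) := by
    unfold gd
    norm_num
    ring
  set u := x ^ 2 / 2 with hu
  have hu0 : 0 ≤ u := by positivity
  have hexp : Real.exp (-x ^ 2 / 2) = Real.exp (-u) := by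
    congr 1
    rw [hu]
    ring
  have he : 1 + u + u ^ 2 / 2 + u ^ 3 / 6 ≤ Real.exp u := by
    have := Real.sum_le_exp_of_nonneg hu0 4
    simp only [Finset.sum_range_succ, Finset.sum_range_zero, Nat.factorial] at this
    norm_num at this
    linarith
  have hpoly : |x ^ 4 - 6 * x ^ 2 + 3| ≤ 3 * Real.exp u := by
    have e : x ^ 4 - 6 * x ^ 2 + 3 = 4 * u ^ 2 - 12 * u + 3 := by
      rw [hu]
      ring
    rw [e, abs_le]
    constructor
    · nlinarith [mul_nonneg hu0 (sq_nonneg u), sq_nonneg (u - 9 / 11)]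
    · nlinarith [mul_nonneg hu0 (sq_nonneg (u - 5 / 2)), mul_nonneg hu0 hu0]
  unfold g4
  rw [abs_mul, hgd, hexp, abs_of_pos (by
    have := (hg.2.1 0).1
    positivity : 0 < gd 0 * Real.exp (-u))]
  have h00 := (hg.2.1 0).1
  calc |x ^ 4 - 6 * x ^ 2 + 3| * (gd 0 * Real.exp (-u)) ≤
      (3 * Real.exp u) * (gd 0 * Real.exp (-u)) :=
        mul_le_mul_of_nonneg_right hpoly (by positivity)
    _ = 3 * gd 0 * (Real.exp u * Real.exp (-u)) := by ring
    _ = 3 * gd 0 := by rw [← Real.exp_add, add_neg_cancel, Real.exp_zero, mul_one]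
    _ ≤ 6 / 5 := by linarith

theorem shift_deriv {f f' : ℝ → ℝ} (h : ∀ x, HasDerivAt f (f' x) x) (a t : ℝ) :
    HasDerivAt (fun t => f (a + t)) (f' (a + t)) t := by
  have h1 : HasDerivAt (fun t : ℝ => a + t) 1 t := (hasDerivAt_id t).const_add a
  have := (h (a + t)).comp t h1
  rw [mul_one] at this
  exact this

theorem shift_deriv' {f f' : ℝ → ℝ} (h : ∀ x, HasDerivAt f (f' x) x) (a t : ℝ) :
    HasDerivAt (fun t => f (a - t)) (-f' (a - t)) t := by
  have h1 : HasDerivAt (fun t : ℝ => a - t) (-1) t := (hasDerivAt_id t).const_sub a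
  have := (h (a - t)).comp t h1
  rw [mul_neg_one] at this
  exact this

theorem taylor5 (hg : S_Gauss) (a t : ℝ) (ht : 0 ≤ t) :
    |Ph (a + t) - Ph (a - t) - 2 * t * gd a - t ^ 3 / 3 * g2 a| ≤ t ^ 5 / 50 := by
  have hder := hg.1
  -- fourth
  have b4 : ∀ x, 0 ≤ x → |g3 (a + x) - g3 (a - x)| ≤ (12 / 5) / ((0 : ℕ) + 1) * x ^ (0 + 1) := by
    apply int_bound (f' := fun x => g4 (a + x) + g4 (a - x))
    · simp
    · intro x
      have := (shift_deriv g3_deriv a x).sub (shift_deriv' g3_deriv a x)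
      rw [sub_neg_eq_add] at this
      exact this
    · intro x _
      rw [pow_zero, mul_one]
      refine (abs_add_le _ _).trans ?_
      linarith [g4_bound hg (a + x), g4_bound hg (a - x)]
  have b3 : ∀ x, 0 ≤ x → |g2 (a + x) + g2 (a - x) - 2 * g2 a| ≤
      (12 / 5) / ((0 : ℕ) + 1) / ((1 : ℕ) + 1) * x ^ (1 + 1) := by
    apply int_bound (f' := fun x => g3 (a + x) - g3 (a - x))
    · simp
      ring
    · intro x
      have := ((shift_deriv g2_deriv a x).add (shift_deriv' g2_deriv a x)).sub_const (2 * g2 a)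
      rw [← sub_eq_add_neg] at this
      exact this
    · intro x hx
      exact b4 x hx
  have b2 : ∀ x, 0 ≤ x → |-(a + x) * gd (a + x) - -(a - x) * gd (a - x) - 2 * x * g2 a| ≤
      (12 / 5) / ((0 : ℕ) + 1) / ((1 : ℕ) + 1) / ((2 : ℕ) + 1) * x ^ (2 + 1) := by
    apply int_bound (f' := fun x => g2 (a + x) + g2 (a - x) - 2 * g2 a)
    · simp
    · intro x
      have h1 : HasDerivAt (fun x : ℝ => 2 * x * g2 a) (2 * g2 a) x := by
        have := ((hasDerivAt_id x).const_mul 2).mul_const (g2 a)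
        rw [mul_one] at this
        exact this
      have := ((shift_deriv g1_deriv a x).sub (shift_deriv' g1_deriv a x)).sub h1
      rw [sub_neg_eq_add] at this
      exact this
    · intro x hx
      exact b3 x hx
  have b1 : ∀ x, 0 ≤ x → |gd (a + x) + gd (a - x) - 2 * gd a - x ^ 2 * g2 a| ≤
      (12 / 5) / ((0 : ℕ) + 1) / ((1 : ℕ) + 1) / ((2 : ℕ) + 1) / ((3 : ℕ) + 1) * x ^ (3 + 1) := by
    apply int_bound
      (f' := fun x => -(a + x) * gd (a + x) - -(a - x) * gd (a - x) - 2 * x * g2 a)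
    · simp
      ring
    · intro x
      have h1 : HasDerivAt (fun x : ℝ => x ^ 2 * g2 a) (2 * x * g2 a) x := by
        have := (hasDerivAt_pow 2 x).mul_const (g2 a)
        have e : ((2 : ℕ) : ℝ) * x ^ (2 - 1) * g2 a = 2 * x * g2 a := by norm_num
        rw [e] at this
        exact this
      have := (((shift_deriv gd_deriv a x).add (shift_deriv' gd_deriv a x)).sub_const
        (2 * gd a)).sub h1
      rw [← sub_eq_add_neg] at this
      exact this
    · intro x hx
      exact b2 x hx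
  have b0 : ∀ x, 0 ≤ x → |Ph (a + x) - Ph (a - x) - 2 * x * gd a - x ^ 3 / 3 * g2 a| ≤
      (12 / 5) / ((0 : ℕ) + 1) / ((1 : ℕ) + 1) / ((2 : ℕ) + 1) / ((3 : ℕ) + 1) / ((4 : ℕ) + 1) *
        x ^ (4 + 1) := by
    apply int_bound (f' := fun x => gd (a + x) + gd (a - x) - 2 * gd a - x ^ 2 * g2 a)
    · simp
    · intro x
      have h1 : HasDerivAt (fun x : ℝ => x ^ 3 / 3 * g2 a) (x ^ 2 * g2 a) x := by
        have := ((hasDerivAt_pow 3 x).div_const 3).mul_const (g2 a)
        have e : ((3 : ℕ) : ℝ) * x ^ (3 - 1) / 3 * g2 a = x ^ 2 * g2 a := by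
          norm_num
        rw [e] at this
        exact this
      have h2 : HasDerivAt (fun x : ℝ => 2 * x * gd a) (2 * gd a) x := by
        have := ((hasDerivAt_id x).const_mul 2).mul_const (gd a)
        rw [mul_one] at this
        exact this
      have := (((shift_deriv hder a x).sub (shift_deriv' hder a x)).sub h2).sub h1
      rw [sub_neg_eq_add] at this
      exact this
    · intro x hx
      exact b1 x hx
  refine (b0 t ht).trans (le_of_eq ?_)
  push_cast
  ring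

theorem cmthm (hg : S_Gauss) : S_Cm := by
  intro κ i hκ _
  have h := taylor5 hg ((i + 1 / 2) * κ) (κ / 2) (by positivity)
  have e1 : ((i : ℝ) + 1 / 2) * κ + κ / 2 = (i + 1) * κ := by ring
  have e2 : ((i : ℝ) + 1 / 2) * κ - κ / 2 = i * κ := by ring
  rw [e1, e2] at h
  unfold cm
  have e3 : 2 * (Ph ((i + 1) * κ) - Ph (i * κ)) -
      2 * κ * gd ((i + 1 / 2) * κ) * (1 + κ ^ 2 * (((i + 1 / 2) * κ) ^ 2 - 1) / 24) =
      2 * (Ph ((i + 1) * κ) - Ph (i * κ) - 2 * (κ / 2) * gd ((i + 1 / 2) * κ) -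
        (κ / 2) ^ 3 / 3 * g2 ((i + 1 / 2) * κ)) := by
    unfold g2
    ring
  rw [e3, abs_mul, abs_of_pos (by norm_num : (0 : ℝ) < 2)]
  calc 2 * |Ph ((i + 1) * κ) - Ph (i * κ) - 2 * (κ / 2) * gd ((i + 1 / 2) * κ) -
        (κ / 2) ^ 3 / 3 * g2 ((i + 1 / 2) * κ)| ≤ 2 * ((κ / 2) ^ 5 / 50) := by linarith
    _ = κ ^ 5 / 800 := by ring

end

end Pool.Agent.W440.PK
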