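import Pool.Agent.W841.PK.Num

/-! PK-GCONV: Gaussian convolution. -/

set_option autoImplicit false

namespace Pool.Agent.W440.PK

open Finset W841.PK MeasureTheory ProbabilityTheory
open scoped Classical

noncomputable section

theorem gd_eq (x : ℝ) : gd x = gaussianPDFReal 0 1 x := by
  unfold gd gaussianPDFReal
  rw [div_eq_inv_mul]
  norm_num

theorem int_gauss (f : ℝ → ℝ) : ∫ x, f x * gd x = ∫ x, f x ∂(gaussianReal 0 1) := by
  rw [integral_gaussianReal_eq_integral_smul (by norm_num : (1 : NNReal) ≠ 0)]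
  congr 1
  funext x
  rw [gd_eq, smul_eq_mul, mul_comm]

theorem Ph_eq (x : ℝ) : Ph x = (gaussianReal 0 1).real (Set.Iic x) := by
  unfold Ph
  have h := int_gauss (Set.indicator (Set.Iic x) (fun _ => (1 : ℝ)))
  have h2 : ∫ y, Set.indicator (Set.Iic x) (fun _ => (1 : ℝ)) y ∂(gaussianReal 0 1) =
      (gaussianReal 0 1).real (Set.Iic x) := by
    rw [integral_indicator measurableSet_Iic]
    simp
  rw [← h2, ← h, ← integral_indicator measurableSet_Iic]
  congr 1
  funext y
  by_cases hy : y ∈ Set.Iic x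
  · simp [hy]
  · simp [hy]

theorem Ph_var {v : NNReal} (hv : v ≠ 0) (x : ℝ) :
    (gaussianReal 0 v).real (Set.Iic x) = Ph (x / √(v : ℝ)) := by
  have hv0 : 0 < √(v : ℝ) := Real.sqrt_pos.2 (by exact_mod_cast pos_iff_ne_zero.2 hv)
  have h : (gaussianReal 0 1).map (fun x => √(v : ℝ) * x) = gaussianReal 0 v := by
    rw [gaussianReal_map_const_mul]
    congr 1
    · simp
    · ext
      simp
  rw [← h, Ph_eq, map_measureReal_apply (by fun_prop) measurableSet_Iic]
  congr 1
  ext y
  simp only [Set.mem_preimage, Set.mem_Iic]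
  rw [le_div_iff₀ hv0, mul_comm]

theorem part1 (τ y : ℝ) (hτ : 0 < τ) :
    heat (fun x => if x ≤ 0 then 1 else 0) τ y = Ph (-y / √τ) := by
  unfold heat
  rw [int_gauss (fun x => if y + √τ * x ≤ 0 then (1 : ℝ) else 0), Ph_eq]
  have hs : 0 < √τ := Real.sqrt_pos.2 hτ
  have h2 : (gaussianReal 0 1).real (Set.Iic (-y / √τ)) =
      ∫ x, Set.indicator (Set.Iic (-y / √τ)) (fun _ => (1 : ℝ)) x ∂(gaussianReal 0 1) := by
    rw [integral_indicator measurableSet_Iic]
    simp
  rw [h2]
  congr 1
  funext x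
  have : (y + √τ * x ≤ 0) ↔ x ∈ Set.Iic (-y / √τ) := by
    rw [Set.mem_Iic, le_div_iff₀ hs]
    constructor <;> intro h <;> linarith
  simp only [this, Set.indicator]

theorem part2 (v τ y : ℝ) (hv : 0 < v) (hτ : 0 < τ) :
    heat (fun x => Ph (-x / √v)) τ y = Ph (-y / √(v + τ)) := by
  unfold heat
  rw [int_gauss (fun x => Ph (-(y + √τ * x) / √v))]
  set V : NNReal := ⟨v, hv.le⟩ with hV
  set T : NNReal := ⟨τ, hτ.le⟩ with hT
  have hVv : (V : ℝ) = v := rfl
  have hTv : (T : ℝ) = τ := rfl
  have hV0 : V ≠ 0 := by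
    intro h
    have : (V : ℝ) = 0 := by rw [h]; rfl
    linarith
  have hVT0 : T + V ≠ 0 := by
    intro h
    have : ((T + V : NNReal) : ℝ) = 0 := by rw [h]; rfl
    rw [NNReal.coe_add] at this
    linarith
  have h1 : Ph (-y / √(v + τ)) = (gaussianReal 0 (T + V)).real (Set.Iic (-y)) := by
    rw [Ph_var hVT0]
    rw [NNReal.coe_add, hVv, hTv, add_comm v τ]
  have h2 : gaussianReal 0 (T + V) = Measure.conv (gaussianReal 0 T) (gaussianReal 0 V) := by
    rw [gaussianReal_conv_gaussianReal, add_zero]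
  rw [h1, h2, Measure.conv, map_measureReal_apply (by fun_prop) measurableSet_Iic]
  rw [measureReal_def, Measure.prod_apply (measurableSet_Iic.preimage (by fun_prop)),
    ← integral_toReal]
  · have h3 : (gaussianReal 0 1).map (fun x => √(T : ℝ) * x) = gaussianReal 0 T := by
      rw [gaussianReal_map_const_mul]
      congr 1
      · simp
      · ext
        simp
    rw [← h3, integral_map]
    · congr 1
      funext x
      have : Prod.mk (√(T : ℝ) * x) ⁻¹' ((fun x : ℝ × ℝ => x.1 + x.2) ⁻¹' Set.Iic (-y)) =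
          Set.Iic (-(y + √τ * x)) := by
        ext z
        simp only [Set.mem_preimage, Set.mem_Iic, hTv]
        constructor <;> intro h <;> linarith
      rw [this, ← measureReal_def, Ph_var hV0, hVv]
    · fun_prop
    · apply Measurable.aestronglyMeasurable
      apply Measurable.ennreal_toReal
      exact measurable_measure_prodMk_left (measurableSet_Iic.preimage (by fun_prop))
  · apply Measurable.aemeasurable
    exact measurable_measure_prodMk_left (measurableSet_Iic.preimage (by fun_prop))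
  · filter_upwards with x
    exact measure_lt_top _ _

theorem gconv (hg : S_Gauss) : S_GConv := by
  refine ⟨part1, part2, ?_⟩
  intro f g θ y hf hgm hf01 hg01 hfg
  unfold heat
  obtain ⟨-, hgd, -, -, -, -, -, hint, -⟩ := hg
  have hb : ∀ h : ℝ → ℝ, Measurable h → (∀ x, 0 ≤ h x ∧ h x ≤ 1) →
      Integrable (fun x => h (y + √θ * x) * gd x) := by
    intro h hm h01
    apply hint.bdd_mul (c := 1)
    · exact (hm.comp (by fun_prop)).aestronglyMeasurable
    · filter_upwards with x
      rw [Real.norm_eq_abs, abs_of_nonneg (h01 _).1]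
      exact (h01 _).2
  apply integral_mono (hb f hf hf01) (hb g hgm hg01)
  intro x
  exact mul_le_mul_of_nonneg_right (hfg _) (hgd x).1.le

end

end Pool.Agent.W440.PK
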