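import Pool.Agent.W841.PK.Stm2

/-! PK-NETUP, PK-NETLOW (helper440): step-function approximations of Gaussian integrals. -/

set_option autoImplicit false

open Finset MeasureTheory Filter Topology

namespace Pool.Agent.W440.PK

open W841.PK

theorem gd_cont : Continuous gd := by
  unfold gd
  fun_prop

theorem ftc {W w : ℝ → ℝ} (hw : Continuous w) (hW : ∀ x, HasDerivAt W (w x) x) (a b : ℝ) :
    ∫ x in a..b, w x = W b - W a :=
  intervalIntegral.integral_eq_sub_of_hasDerivAt (fun x _ => hW x) (hw.intervalIntegrable _ _)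

theorem lip_nonneg {H : ℝ → ℝ} {L : ℝ} (hL : ∀ x x', |H x - H x'| ≤ L * |x - x'|) : 0 ≤ L := by
  have h := hL 1 0
  norm_num at h
  exact (abs_nonneg _).trans h

theorem lip_cont {H : ℝ → ℝ} {L : ℝ} (hL : ∀ x x', |H x - H x'| ≤ L * |x - x'|) :
    Continuous H := by
  have h0 := lip_nonneg hL
  have : LipschitzWith (Real.toNNReal L) H := by
    refine LipschitzWith.of_dist_le_mul fun x x' => ?_
    rw [Real.dist_eq, Real.dist_eq, Real.coe_toNNReal L h0]
    exact hL x x'
  exact this.continuous

/-- Riemann-Stieltjes sums -/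
theorem grid {W w H : ℝ → ℝ} (hw : Continuous w) (hw0 : ∀ x, 0 ≤ w x)
    (hW : ∀ x, HasDerivAt W (w x) x) {L : ℝ} (hL : ∀ x x', |H x - H x'| ≤ L * |x - x'|)
    (a h : ℝ) (hh : 0 ≤ h) (ξ : ℕ → ℝ) (hξ : ∀ i : ℕ, a + i * h ≤ ξ i ∧ ξ i ≤ a + (i + 1) * h)
    (M : ℕ) :
    |(∑ i ∈ range M, (W (a + (i + 1) * h) - W (a + i * h)) * H (ξ i)) -
      ∫ x in a..(a + M * h), H x * w x| ≤ L * h * (W (a + M * h) - W a) := by
  have hHc := lip_cont hL
  have hL0 := lip_nonneg hL
  have hHw : Continuous fun x => H x * w x := hHc.mul hw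
  induction M with
  | zero => simp
  | succ M ih =>
    rw [sum_range_succ]
    push_cast
    have hle : a + (M : ℝ) * h ≤ a + (M + 1) * h := by nlinarith
    have e1 : ∫ x in a..(a + ((M : ℝ) + 1) * h), H x * w x =
        (∫ x in a..(a + (M : ℝ) * h), H x * w x) +
          ∫ x in (a + (M : ℝ) * h)..(a + ((M : ℝ) + 1) * h), H x * w x :=
      (intervalIntegral.integral_add_adjacent_intervals (hHw.intervalIntegrable _ _)
        (hHw.intervalIntegrable _ _)).symm
    have e2 : (W (a + ((M : ℝ) + 1) * h) - W (a + (M : ℝ) * h)) * H (ξ M) =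
        ∫ x in (a + (M : ℝ) * h)..(a + ((M : ℝ) + 1) * h), H (ξ M) * w x := by
      rw [intervalIntegral.integral_const_mul, ftc hw hW]
      ring
    have e3 : |(∫ x in (a + (M : ℝ) * h)..(a + ((M : ℝ) + 1) * h), H (ξ M) * w x) -
        ∫ x in (a + (M : ℝ) * h)..(a + ((M : ℝ) + 1) * h), H x * w x| ≤
        L * h * (W (a + ((M : ℝ) + 1) * h) - W (a + (M : ℝ) * h)) := by
      rw [← intervalIntegral.integral_sub ((hw.const_mul _).intervalIntegrable _ _)
        (hHw.intervalIntegrable _ _), ← ftc hw hW, ← intervalIntegral.integral_const_mul,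
        ← Real.norm_eq_abs]
      refine intervalIntegral.norm_integral_le_of_norm_le hle
        (Eventually.of_forall fun x hx => ?_) ((hw.const_mul _).intervalIntegrable _ _)
      rw [← sub_mul, norm_mul, Real.norm_eq_abs, Real.norm_of_nonneg (hw0 x)]
      refine mul_le_mul_of_nonneg_right ?_ (hw0 x)
      refine (hL _ _).trans (mul_le_mul_of_nonneg_left ?_ hL0)
      rw [abs_le]
      have h1 := hξ M
      constructor
      · linarith [hx.2, h1.1]
      · linarith [hx.1, h1.2]
    rw [e1, e2]
    have h5 := abs_le.1 e3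
    have h6 := abs_le.1 ih
    rw [abs_le]
    constructor
    · linarith [h5.1, h6.1]
    · linarith [h5.2, h6.2]

theorem tele_ge {W : ℝ → ℝ} (hW : Monotone W) (a h : ℝ) (hh : 0 ≤ h) (M : ℕ) (x : ℝ) :
    W (min x (a + M * h)) - W (min x a) ≤
      ∑ i ∈ range M, (if a + i * h ≤ x then W (a + (i + 1) * h) - W (a + i * h) else 0) := by
  induction M with
  | zero => simp
  | succ M ih =>
    rw [sum_range_succ]
    push_cast
    have hle : a + (M : ℝ) * h ≤ a + (M + 1) * h := by nlinarith
    have hstep : W (min x (a + ((M : ℝ) + 1) * h)) - W (min x (a + (M : ℝ) * h)) ≤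
        if a + (M : ℝ) * h ≤ x then W (a + ((M : ℝ) + 1) * h) - W (a + (M : ℝ) * h) else 0 := by
      split_ifs with hx
      · rw [min_eq_right hx]
        have := hW (min_le_right x (a + ((M : ℝ) + 1) * h))
        linarith
      · have h1 : x ≤ a + (M : ℝ) * h := (not_le.1 hx).le
        rw [min_eq_left h1, min_eq_left (h1.trans hle)]
        linarith
    linarith

theorem tele_le {W : ℝ → ℝ} (hW : Monotone W) (a h : ℝ) (hh : 0 ≤ h) (M : ℕ) (x : ℝ) :
    ∑ i ∈ range M, (if a + ((i : ℝ) + 1) * h ≤ x then W (a + (i + 1) * h) - W (a + i * h) else 0) ≤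
      W (min x (a + M * h)) - W (min x a) := by
  induction M with
  | zero => simp
  | succ M ih =>
    rw [sum_range_succ]
    push_cast
    have hle : a + (M : ℝ) * h ≤ a + (M + 1) * h := by nlinarith
    have hstep : (if a + ((M : ℝ) + 1) * h ≤ x then
        W (a + ((M : ℝ) + 1) * h) - W (a + (M : ℝ) * h) else 0) ≤
        W (min x (a + ((M : ℝ) + 1) * h)) - W (min x (a + (M : ℝ) * h)) := by
      split_ifs with hx
      · rw [min_eq_right hx, min_eq_right (hle.trans hx)]
      · have := hW (min_le_min_left x hle)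
        linarith
    linarith

theorem sum_incr (W : ℝ → ℝ) (a h : ℝ) (M : ℕ) :
    ∑ i ∈ range M, (W (a + ((i : ℝ) + 1) * h) - W (a + i * h)) = W (a + M * h) - W a := by
  have := sum_range_sub (fun i : ℕ => W (a + (i : ℝ) * h)) M
  simpa using this

theorem int_le {φ : ℝ → ℝ} (hφ : Integrable φ) (h0 : ∀ x, 0 ≤ φ x) {a b : ℝ} (hab : a ≤ b) :
    ∫ x in a..b, φ x ≤ ∫ x, φ x := by
  rw [intervalIntegral.integral_of_le hab]
  exact setIntegral_le_integral hφ (Eventually.of_forall h0)

theorem heat_sq (f : ℝ → ℝ) {s : ℝ} (hs : 0 < s) (y : ℝ) :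
    heat f (s ^ 2) y = ∫ x, f (y + s * x) * gd x := by
  unfold heat
  rw [Real.sqrt_sq hs.le]

theorem bdd_integrable (hgd : Integrable gd) (hgd0 : ∀ x, 0 < gd x) {r : ℝ → ℝ}
    (hr : Continuous r) (h01 : ∀ x, 0 ≤ r x ∧ r x ≤ 1) : Integrable fun x => r x * gd x := by
  refine hgd.mono' (hr.mul gd_cont).aestronglyMeasurable (Eventually.of_forall fun x => ?_)
  rw [norm_mul, Real.norm_of_nonneg (h01 x).1, Real.norm_of_nonneg (hgd0 x).le]
  nlinarith [(h01 x).2, hgd0 x]

/-- tails of the normal distribution -/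
theorem tails (hG : S_Gauss) {ε : ℝ} (hε : 0 < ε) :
    ∃ T : ℝ, 0 < T ∧ ∀ x, T ≤ x → 1 - Ph x ≤ ε ∧ Ph (-x) ≤ ε := by
  obtain ⟨_, _, hsymm, hmono, _, hlim, _⟩ := hG
  obtain ⟨T, hT⟩ := (hlim.eventually (lt_mem_nhds (show 1 - ε < 1 by linarith))).exists_forall_of_atTop
  refine ⟨max T 1, by positivity, fun x hx => ?_⟩
  have h1 := hT x ((le_max_left _ _).trans hx)
  rw [hsymm]
  constructor <;> linarith

theorem netup (hG : S_Gauss) : S_NetUp := by
  intro F hF y s ε hs hε
  obtain ⟨hanti, hF01, L, hL⟩ := hF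
  obtain ⟨T, hT0, hT⟩ := tails hG (show 0 < ε / 4 by positivity)
  obtain ⟨hder, hgd, hsymm, hmono, hPh01, hlim, hlim', hint, hone, _, _⟩ := hG
  have hL0 := lip_nonneg hL
  set H : ℝ → ℝ := fun x => F (y + s * x) with hH
  have hHL : ∀ x x', |H x - H x'| ≤ (L * s) * |x - x'| := by
    intro x x'
    refine (hL _ _).trans ?_
    have : y + s * x - (y + s * x') = s * (x - x') := by ring
    rw [this, abs_mul, abs_of_pos hs, mul_assoc]
  set h : ℝ := ε / (2 * (L * s + 1)) with hh
  have hLs : 0 ≤ L * s := mul_nonneg hL0 hs.le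
  have hh0 : 0 < h := by positivity
  have hLh : L * s * h ≤ ε / 2 := by
    rw [hh, mul_div_assoc', div_le_div_iff₀ (by positivity) (by norm_num)]
    nlinarith
  obtain ⟨M, hM⟩ := exists_nat_ge (2 * T / h)
  have hXT : T ≤ -T + M * h := by
    rw [div_le_iff₀ hh0] at hM
    linarith
  have hX := hT _ hXT
  have ha := (hT T le_rfl).2
  refine ⟨M, fun i => Ph (-T + ((i : ℝ) + 1) * h) - Ph (-T + i * h),
    fun i => y + s * (-T + i * h), Ph (-T) + (1 - Ph (-T + M * h)), ?_, ?_, ?_, ?_, ?_⟩
  · intro i _
    have : Ph (-T + i * h) ≤ Ph (-T + ((i : ℝ) + 1) * h) := hmono (by nlinarith)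
    simp only
    linarith
  · have h1 := (hPh01 (-T)).1
    have h2 := (hPh01 (-T + M * h)).2
    linarith
  · rw [sum_incr]
    linarith
  · intro z
    set x := (z - y) / s with hx
    have hiff : ∀ i : ℕ, y + s * (-T + i * h) ≤ z ↔ -T + i * h ≤ x := by
      intro i
      rw [hx, le_div_iff₀ hs]
      constructor <;> intro h' <;> linarith
    simp only [hiff]
    have h1 := tele_ge hmono (-T) h hh0.le M x
    have h2 : Ph (min x (-T)) ≤ Ph (-T) := hmono (min_le_right _ _)
    rcases le_total x (-T + M * h) with h3 | h3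
    · rw [min_eq_left h3] at h1
      have h4 := (hPh01 (-T + M * h)).2
      linarith
    · rw [min_eq_right h3] at h1
      have h4 := (hPh01 x).2
      linarith
  · rw [heat_sq F hs]
    have hg := grid (W := Ph) (w := gd) gd_cont (fun x => (hgd x).1.le) hder hHL (-T) h hh0.le
      (fun i => -T + i * h) (fun i => ⟨le_rfl, by nlinarith⟩) M
    have h1 : ∫ x in (-T)..(-T + M * h), H x * gd x ≤ ∫ x, H x * gd x :=
      int_le (bdd_integrable hint (fun x => (hgd x).1) (lip_cont hHL) fun x => hF01 _)
        (fun x => mul_nonneg (hF01 _).1 (hgd x).1.le) (by linarith)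
    have h2 := (abs_le.1 hg).2
    have h3 : L * s * h * (Ph (-T + M * h) - Ph (-T)) ≤ ε / 2 := by
      have h4 := (hPh01 (-T + M * h)).2
      have h5 := (hPh01 (-T)).1
      have h6 : 0 ≤ Ph (-T + M * h) - Ph (-T) := by
        have := hmono (show -T ≤ -T + M * h by linarith)
        linarith
      calc L * s * h * (Ph (-T + M * h) - Ph (-T)) ≤ ε / 2 * 1 := by
            apply mul_le_mul hLh (by linarith) h6 (by positivity)
        _ = ε / 2 := mul_one _
    linarith [hX.1]

theorem netlow (hG : S_Gauss) : S_NetLow := by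
  intro g hg B y s ε hB hs hε
  obtain ⟨hanti, hg01, L, hL⟩ := hg
  obtain ⟨T, hT0, hT⟩ := tails hG (show 0 < ε / 4 by positivity)
  obtain ⟨hder, hgd, hsymm, hmono, hPh01, hlim, hlim', hint, hone, _, _⟩ := hG
  have hL0 := lip_nonneg hL
  set β : ℝ := (B - y) / s with hβ
  have hβs : s * β = B - y := by
    rw [hβ]
    field_simp
  set H : ℝ → ℝ := fun x => g (y + s * x) with hH
  have hHL : ∀ x x', |H x - H x'| ≤ (L * s) * |x - x'| := by
    intro x x'
    refine (hL _ _).trans ?_
    have : y + s * x - (y + s * x') = s * (x - x') := by ring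
    rw [this, abs_mul, abs_of_pos hs, mul_assoc]
  set W : ℝ → ℝ := fun x => Ph x - Ph (2 * β - x) with hWdef
  set w : ℝ → ℝ := fun x => gd x + gd (2 * β - x) with hwdef
  have hwc : Continuous w := gd_cont.add (gd_cont.comp (by fun_prop))
  have hw0 : ∀ x, 0 ≤ w x := fun x => add_nonneg (hgd x).1.le (hgd _).1.le
  have hW : ∀ x, HasDerivAt W (w x) x := by
    intro x
    have h1 : HasDerivAt (fun x : ℝ => 2 * β - x) (-1) x := (hasDerivAt_id x).const_sub _
    have h2 := (hder x).sub ((hder (2 * β - x)).comp x h1)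
    have e : gd x - gd (2 * β - x) * -1 = w x := by
      rw [hwdef]
      ring
    rw [e] at h2
    exact h2
  have hWm : Monotone W := by
    intro x x' hxx
    have h1 := hmono hxx
    have h2 := hmono (show 2 * β - x' ≤ 2 * β - x by linarith)
    simp only [hWdef]
    linarith
  have hWβ : W β = 0 := by
    simp only [hWdef]
    rw [show 2 * β - β = β by ring, sub_self]
  have hW1 : ∀ x, W x ≤ 1 := by
    intro x
    simp only [hWdef]
    linarith [(hPh01 x).2, (hPh01 (2 * β - x)).1]
  set h : ℝ := ε / (2 * (L * s + 1)) with hh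
  have hLs : 0 ≤ L * s := mul_nonneg hL0 hs.le
  have hh0 : 0 < h := by positivity
  have hLh : L * s * h ≤ ε / 2 := by
    rw [hh, mul_div_assoc', div_le_div_iff₀ (by positivity) (by norm_num)]
    nlinarith
  obtain ⟨M, hM⟩ := exists_nat_ge ((T + |β|) / h)
  rw [div_le_iff₀ hh0] at hM
  have hβ1 := neg_abs_le β
  have hβ2 := le_abs_self β
  set X : ℝ := β + M * h with hXdef
  have hXT : T ≤ X := by linarith
  have hXT2 : T ≤ X - 2 * β := by linarith
  have hX1 := (hT X hXT).1
  have hX2 := (hT _ hXT2).2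
  have hX2' : Ph (2 * β - X) ≤ ε / 4 := by
    rw [show 2 * β - X = -(X - 2 * β) by ring]
    exact hX2
  have hβX : β ≤ X := by
    have : 0 ≤ (M : ℝ) * h := by positivity
    linarith
  refine ⟨M, fun i => W (β + ((i : ℝ) + 1) * h) - W (β + i * h),
    fun i => y + s * (β + ((i : ℝ) + 1) * h), ?_, ?_, ?_, ?_⟩
  · intro i _
    constructor
    · have : W (β + i * h) ≤ W (β + ((i : ℝ) + 1) * h) := hWm (by nlinarith)
      simp only
      linarith
    · have : 0 ≤ s * (((i : ℝ) + 1) * h) := by positivity
      simp only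
      nlinarith
  · rw [sum_incr, hWβ]
    linarith [hW1 (β + M * h)]
  · intro z hz
    set x := (z - y) / s with hx
    have hxβ : β ≤ x := by
      rw [hβ, hx]
      exact div_le_div_of_nonneg_right (by linarith) hs.le
    have hiff : ∀ i : ℕ, y + s * (β + ((i : ℝ) + 1) * h) ≤ z ↔ β + ((i : ℝ) + 1) * h ≤ x := by
      intro i
      rw [hx, le_div_iff₀ hs]
      constructor <;> intro h' <;> linarith
    simp only [hiff]
    have h1 := tele_le hWm β h hh0.le M x
    rw [min_eq_right hxβ, hWβ, sub_zero] at h1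
    have h2 : W (min x (β + M * h)) ≤ W x := hWm (min_le_left _ _)
    have h3 : W x = Ph ((z - y) / s) - Ph ((2 * B - z - y) / s) := by
      simp only [hWdef]
      congr 2
      rw [hx, hβ]
      field_simp
      ring
    rw [← h3]
    exact h1.trans h2
  · rw [heat_sq _ hs]
    set r : ℝ → ℝ := fun x => W841.PK.refl B g (y + s * x) with hr
    have hr01 : ∀ x, 0 ≤ r x ∧ r x ≤ 1 := fun x => hg01 _
    have hrc : Continuous r := by
      have hgc := lip_cont hL
      have : Continuous fun x : ℝ => B + |y + s * x - B| := by fun_prop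
      exact hgc.comp this
    have hrH : ∀ x, r x = H (β + |x - β|) := by
      intro x
      simp only [hr, hH, W841.PK.refl]
      congr 1
      have h1 : y + s * x - B = s * (x - β) := by
        rw [mul_sub, hβs]
        ring
      rw [h1, abs_mul, abs_of_pos hs, mul_add, hβs]
      ring
    have hri := bdd_integrable hint (fun x => (hgd x).1) hrc hr01
    have hrg : Continuous fun x => r x * gd x := hrc.mul gd_cont
    -- the tails
    have htail : ∫ x, r x * gd x ≤ (∫ x in (2 * β - X)..X, r x * gd x) +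
        (1 - (Ph X - Ph (2 * β - X))) := by
      have h1 : ∫ x in (2 * β - X)..X, (gd x - r x * gd x) ≤ ∫ x, (gd x - r x * gd x) :=
        int_le (hint.sub hri) (fun x => by
          show 0 ≤ gd x - r x * gd x
          nlinarith [(hr01 x).2, (hgd x).1]) (by linarith [hβX])
      rw [integral_sub hint hri, hone, intervalIntegral.integral_sub
        (gd_cont.intervalIntegrable _ _) (hrg.intervalIntegrable _ _),
        ftc gd_cont hder] at h1
      linarith
    -- the reflection
    have hHc := lip_cont hHL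
    have hsplit : ∫ x in (2 * β - X)..X, r x * gd x = ∫ x in β..X, H x * w x := by
      have c2 : Continuous fun x => H x * gd (2 * β - x) :=
        hHc.mul (gd_cont.comp (by fun_prop : Continuous fun x : ℝ => 2 * β - x))
      have c3 : Continuous fun x => H x * gd x := hHc.mul gd_cont
      rw [← intervalIntegral.integral_add_adjacent_intervals
        (hrg.intervalIntegrable (2 * β - X) β) (hrg.intervalIntegrable β X)]
      have e1 : ∫ x in (2 * β - X)..β, r x * gd x = ∫ x in β..X, H x * gd (2 * β - x) := by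
        have h1 := intervalIntegral.integral_comp_sub_left (a := 2 * β - X) (b := β)
          (fun u => H u * gd (2 * β - u)) (2 * β)
        rw [show 2 * β - β = β by ring, show 2 * β - (2 * β - X) = X by ring] at h1
        rw [← h1]
        refine intervalIntegral.integral_congr fun x hx => ?_
        rw [Set.uIcc_of_le (by linarith [hβX])] at hx
        show r x * gd x = H (2 * β - x) * gd (2 * β - (2 * β - x))
        rw [hrH, abs_of_nonpos (by linarith [hx.2])]
        congr 2 <;> ring
      have e2 : ∫ x in β..X, r x * gd x = ∫ x in β..X, H x * gd x := by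
        refine intervalIntegral.integral_congr fun x hx => ?_
        rw [Set.uIcc_of_le hβX] at hx
        show r x * gd x = H x * gd x
        rw [hrH, abs_of_nonneg (by linarith [hx.1])]
        congr 2
        ring
      rw [e1, e2, ← intervalIntegral.integral_add
        (c2.intervalIntegrable _ _) (c3.intervalIntegrable _ _)]
      refine intervalIntegral.integral_congr fun x _ => ?_
      simp only [hwdef]
      ring
    have hgr := grid (W := W) (w := w) hwc hw0 hW hHL β h hh0.le
      (fun i => β + ((i : ℝ) + 1) * h) (fun i => ⟨by nlinarith, le_rfl⟩) M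
    rw [hWβ, sub_zero] at hgr
    have h2 := (abs_le.1 hgr).1
    have h3 : L * s * h * W (β + M * h) ≤ ε / 2 := by
      have h6 : 0 ≤ W (β + M * h) := by
        have := hWm hβX
        rw [hWβ] at this
        exact this
      calc L * s * h * W (β + M * h) ≤ ε / 2 * 1 := by
            apply mul_le_mul hLh (hW1 _) h6 (by positivity)
        _ = ε / 2 := mul_one _
    rw [hsplit] at htail
    linarith

end Pool.Agent.W440.PK
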