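import Pool.Agent.W841.PK.Num

/-! PK-SEM: the two heat steps. -/

set_option autoImplicit false

namespace Pool.Agent.W440.PK

open Finset W841.PK
open scoped Classical

noncomputable section

theorem floor_rep {δ : ℝ} (hδ : 0 < δ) (y : ℝ) :
    ∃ (l : ℤ) (s : ℝ), 0 ≤ s ∧ s ≤ 1 ∧ y = ((l : ℝ) + s) * δ ∧ l = ⌊y / δ⌋ := by
  refine ⟨⌊y / δ⌋, y / δ - ⌊y / δ⌋, ?_, ?_, ?_, rfl⟩
  · linarith [Int.floor_le (y / δ)]
  · linarith [Int.lt_floor_add_one (y / δ)]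
  · rw [add_sub_cancel]
    field_simp

theorem sum_shift (A : ℤ → ℝ) (hA : ∀ i, 0 ≤ A i) (l : ℤ) :
    ∑ m ∈ Finset.Icc (-32 : ℤ) 32, A (l - m) ≤ ∑ m ∈ Finset.Icc (-33 : ℤ) 33, A (l + 1 - m) := by
  have h1 : ∑ m ∈ Finset.Icc (-32 : ℤ) 32, A (l - m) =
      ∑ m ∈ Finset.Icc (-31 : ℤ) 33, A (l + 1 - m) := by
    refine Finset.sum_bij (fun m _ => m + 1) ?_ ?_ ?_ ?_
    · intro m hm
      rw [Finset.mem_Icc] at hm ⊢
      omega
    · intro a _ b _ h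
      omega
    · intro b hb
      rw [Finset.mem_Icc] at hb
      refine ⟨b - 1, ?_, by omega⟩
      rw [Finset.mem_Icc]
      omega
    · intro m _
      congr 1
      ring
  rw [h1]
  apply Finset.sum_le_sum_of_subset_of_nonneg
  · intro m hm
    rw [Finset.mem_Icc] at hm ⊢
    omega
  · intro i _ _
    exact hA _

theorem sum_33 (A : ℤ → ℝ) (c : ℝ) (l : ℤ) :
    ∑ m ∈ Finset.Icc (-224 : ℤ) 224, (if |m| ≤ 33 then c else 0) * A (l - m) =
      c * ∑ m ∈ Finset.Icc (-33 : ℤ) 33, A (l - m) := by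
  rw [Finset.mul_sum]
  symm
  rw [← Finset.sum_subset (s₁ := Finset.Icc (-33 : ℤ) 33)
    (f := fun m => (if |m| ≤ 33 then c else 0) * A (l - m))]
  · apply Finset.sum_congr rfl
    intro m hm
    rw [Finset.mem_Icc] at hm
    have : |m| ≤ 33 := abs_le.2 ⟨by omega, by omega⟩
    simp only [this, if_true]
  · intro m hm
    rw [Finset.mem_Icc] at hm ⊢
    omega
  · intro m _ hm
    have : ¬ |m| ≤ 33 := by
      intro h
      rw [abs_le] at h
      exact hm (Finset.mem_Icc.2 h)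
    simp only [this, if_false, zero_mul]

theorem semup (hp : S_Pl) (h1 : S_GridUp) (h2 : S_InterpUp) : S_SemUp := by
  intro δ A A' K hδ hA hA01 hK hA' y
  obtain ⟨l, s, hs0, hs1, hy, -⟩ := floor_rep hδ y
  have hpl := (hp δ hδ).2.1 A' l s hs0 hs1
  rw [hy, hpl]
  have hi := h2 δ A l s hδ hA hA01 hs0 hs1
  have hg1 := h1 δ A l hδ hA01
  have hg2 := h1 δ A (l + 1) hδ hA01
  rw [show (((l + 1 : ℤ) : ℝ)) = (l : ℝ) + 1 by push_cast; ring] at hg2
  have hstep : ∀ l : ℤ, ∑ m ∈ Finset.Icc (-224 : ℤ) 224, kap m * A (l - m) +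
      1 / (20 * 32 ^ 3) * ∑ m ∈ Finset.Icc (-33 : ℤ) 33, A (l - m) + 4 / 10 ^ 12 ≤ A' l := by
    intro l
    refine le_trans ?_ (hA' l)
    rw [← sum_33 A (1 / (20 * 32 ^ 3)) l, ← Finset.sum_add_distrib]
    refine add_le_add_left (Finset.sum_le_sum fun m hm => ?_) _
    rw [Finset.mem_Icc] at hm
    have h3 := hK m (abs_le.2 ⟨by omega, by omega⟩)
    rw [← add_mul]
    exact mul_le_mul_of_nonneg_right h3 (hA01 _).1
  have hl := hstep l
  have hl1 := hstep (l + 1)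
  have hS1 : ∑ m ∈ Finset.Icc (-32 : ℤ) 32, A (l - m) ≤ ∑ m ∈ Finset.Icc (-33 : ℤ) 33, A (l - m) := by
    apply Finset.sum_le_sum_of_subset_of_nonneg
    · intro m hm
      rw [Finset.mem_Icc] at hm ⊢
      omega
    · intro i _ _
      exact (hA01 _).1
  have hS2 := sum_shift A (fun i => (hA01 i).1) l
  generalize (∑ m ∈ Finset.Icc (-32 : ℤ) 32, A (l - m)) = t0 at *
  generalize (∑ m ∈ Finset.Icc (-33 : ℤ) 33, A (l - m)) = t1 at *
  generalize (∑ m ∈ Finset.Icc (-33 : ℤ) 33, A (l + 1 - m)) = t2 at *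
  generalize (∑ m ∈ Finset.Icc (-224 : ℤ) 224, kap m * A (l - m)) = k1 at *
  generalize (∑ m ∈ Finset.Icc (-224 : ℤ) 224, kap m * A (l + 1 - m)) = k2 at *
  generalize heat (pl δ A) ((32 * δ) ^ 2) (l * δ) = a1 at *
  generalize heat (pl δ A) ((32 * δ) ^ 2) ((l + 1) * δ) = a2 at *
  have e1 : (1 - s) * a1 ≤ (1 - s) * (A' l - 1 / (20 * 32 ^ 3) * t0) :=
    mul_le_mul_of_nonneg_left (by linarith) (by linarith)
  have e2 : s * a2 ≤ s * (A' (l + 1) - 1 / (20 * 32 ^ 3) * t0) :=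
    mul_le_mul_of_nonneg_left (by linarith) hs0
  linarith

theorem semlow (hp : S_Pl) (h1 : S_GridLow) (h2 : S_InterpLow) : S_SemLow := by
  intro δ A A' K b hδ hA01 hK hA' y hby
  obtain ⟨l, s, hs0, hs1, hy, hl⟩ := floor_rep hδ y
  have hbl : b ≤ l := by
    rw [hl]
    apply Int.le_floor.2
    rw [le_div_iff₀ hδ]
    exact hby
  have hpl := (hp δ hδ).2.1 A' l s hs0 hs1
  rw [hy, hpl]
  have hi := h2 δ A l s hδ hA01 hs0 hs1
  have hg1 := h1 δ A l hδ hA01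
  have hg2 := h1 δ A (l + 1) hδ hA01
  rw [show (((l + 1 : ℤ) : ℝ)) = (l : ℝ) + 1 by push_cast; ring] at hg2
  have hstep : ∀ l : ℤ, b ≤ l → A' l ≤ ∑ m ∈ Finset.Icc (-224 : ℤ) 224, kap m * A (l - m) -
      ∑ m ∈ Finset.Icc (-224 : ℤ) 224, mmw m * A (l - m) - 1 / 10 ^ 11 := by
    intro l hbl
    refine le_trans (hA' l hbl) ?_
    rw [← Finset.sum_sub_distrib]
    refine sub_le_sub_right (Finset.sum_le_sum fun m hm => ?_) _
    rw [Finset.mem_Icc] at hm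
    have h3 := hK m (abs_le.2 ⟨by omega, by omega⟩)
    rw [← sub_mul]
    exact mul_le_mul_of_nonneg_right h3 (hA01 _).1
  have hl := hstep l hbl
  have hl1 := hstep (l + 1) (by omega)
  generalize (∑ m ∈ Finset.Icc (-224 : ℤ) 224, mmw m * A (l - m)) = m1 at *
  generalize (∑ m ∈ Finset.Icc (-224 : ℤ) 224, mmw m * A (l + 1 - m)) = m2 at *
  generalize (∑ m ∈ Finset.Icc (-224 : ℤ) 224, kap m * A (l - m)) = k1 at *
  generalize (∑ m ∈ Finset.Icc (-224 : ℤ) 224, kap m * A (l + 1 - m)) = k2 at *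
  generalize heat (pl δ A) ((32 * δ) ^ 2) (l * δ) = a1 at *
  generalize heat (pl δ A) ((32 * δ) ^ 2) ((l + 1) * δ) = a2 at *
  have e1 : (1 - s) * A' l ≤ (1 - s) * (a1 - m1 - 1 / 10 ^ 11) :=
    mul_le_mul_of_nonneg_left (by linarith) (by linarith)
  have e2 : s * A' (l + 1) ≤ s * (a2 - m2 - 1 / 10 ^ 11) :=
    mul_le_mul_of_nonneg_left (by linarith) hs0
  linarith

end

end Pool.Agent.W440.PK
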