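import Pool.Agent.W841.PK.Api
import Pool.Agent.W440.PK.Net

/-! PK-TSTEP: propagation of the tail bound for the non-planted vertices. -/

set_option autoImplicit false

namespace Pool.Agent.W440.PK

open Finset W841.PK
open scoped Classical

noncomputable section

theorem rv_anti (n : ℕ) {x x' : ℝ} (hx : 0 < x) (h : x ≤ x') : rv n x' ≤ rv n x := by
  unfold rv
  apply min_le_min_right
  apply Nat.floor_le_floor
  exact div_le_div_of_nonneg_left (Nat.cast_nonneg _) hx h

theorem rv_le (n : ℕ) {x : ℝ} (hx : 0 < x) : (rv n x : ℝ) ≤ n / x := by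
  have h1 : (rv n x : ℝ) ≤ (⌊(n : ℝ) / x⌋₊ : ℝ) := by
    unfold rv
    exact_mod_cast min_le_left _ _
  exact h1.trans (Nat.floor_le (by positivity))

theorem rv_ge {η U : ℝ} (hη : 0 < η) (hU : 1 ≤ U) :
    ∃ n1 : ℕ, ∀ n ≥ n1, 0 < n ∧ ∀ x : ℝ, 1 ≤ x → x ≤ U → (n : ℝ) / (x + η) ≤ rv n x := by
  obtain ⟨m1, hm1⟩ := exists_nat_ge (U * (U + η) / η)
  obtain ⟨m2, hm2⟩ := exists_nat_ge (((1 + η) / η) ^ 2)
  refine ⟨max (max m1 m2) 1, fun n hn => ⟨?_, ?_⟩⟩
  · have : 1 ≤ n := le_trans (le_max_right _ _) hn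
    omega
  intro x hx hxU
  have hn1 : (m1 : ℝ) ≤ n := by
    exact_mod_cast le_trans (le_trans (le_max_left _ _) (le_max_left _ _)) hn
  have hn2 : (m2 : ℝ) ≤ n := by
    exact_mod_cast le_trans (le_trans (le_max_right _ _) (le_max_left _ _)) hn
  have hx0 : 0 < x := by linarith
  unfold rv
  rw [Nat.cast_min, le_min_iff]
  constructor
  · have h1 : (n : ℝ) / x < ⌊(n : ℝ) / x⌋₊ + 1 := Nat.lt_floor_add_one _
    have h2 : (n : ℝ) / (x + η) + 1 ≤ n / x := by
      have h3 : U * (U + η) / η ≤ n := hm1.trans hn1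
      rw [div_le_iff₀ hη] at h3
      have h4 : x * (x + η) ≤ U * (U + η) := by nlinarith
      rw [div_add_one (by positivity), div_le_div_iff₀ (by positivity) hx0]
      nlinarith
    linarith
  · have hs : (Nat.sqrt n : ℝ) ≤ √(n : ℝ) := by
      apply Real.le_sqrt_of_sq_le
      have := Nat.sqrt_le' n
      exact_mod_cast this
    have hle : Nat.sqrt n ≤ n := Nat.sqrt_le_self n
    rw [Nat.cast_sub hle]
    have hq : (1 + η) / η ≤ √(n : ℝ) := by
      apply Real.le_sqrt_of_sq_le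
      exact hm2.trans hn2
    rw [div_le_iff₀ hη] at hq
    have hsq : √(n : ℝ) * √(n : ℝ) = n := Real.mul_self_sqrt (Nat.cast_nonneg _)
    have hs0 : 0 ≤ √(n : ℝ) := Real.sqrt_nonneg _
    have h5 : (n : ℝ) / (x + η) ≤ n / (1 + η) :=
      div_le_div_of_nonneg_left (Nat.cast_nonneg _) (by linarith) (by linarith)
    have h6 : (n : ℝ) / (1 + η) ≤ n - √(n : ℝ) := by
      rw [div_le_iff₀ (by linarith)]
      nlinarith
    linarith

theorem sqrt_add_le' {A c : ℝ} (hA : 0 ≤ A) (hc : 0 ≤ c) : √(A + c) ≤ √A + √c := by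
  rw [Real.sqrt_le_iff]
  constructor
  · positivity
  · have h1 := Real.mul_self_sqrt hA
    have h2 := Real.mul_self_sqrt hc
    have h3 := mul_nonneg (Real.sqrt_nonneg A) (Real.sqrt_nonneg c)
    nlinarith

theorem tstep (_hb : S_Basic) (hg : S_Gauss) (hh : S_HeatC) (hf : S_FlowN) : S_TStep := by
  intro v0 F hv0 hF hAN u u' y E hu huu hE ε hε
  obtain ⟨hanti, hF01, L, hL⟩ := hF
  have hL0 : 0 ≤ L := lip_nonneg hL
  obtain ⟨hPanti, hP01, hP0, hPL, -, -, -⟩ := hh F L hanti hF01 hL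
  obtain ⟨T, hT0, hT⟩ := tails hg (show 0 < ε / 8 by positivity)
  obtain ⟨-, -, -, hmono, hPh01, -⟩ := hg
  set K : ℝ := max T 1 with hK
  have hK1 : 1 ≤ K := le_max_right _ _
  have hPK : 1 - ε / 8 ≤ Ph K := by linarith [(hT K (le_max_left _ _)).1]
  set δ : ℝ := ε / (8 * (L + 1)) with hδ
  have hδ0 : 0 < δ := by positivity
  have hLδ : L * δ ≤ ε / 8 := by
    rw [hδ, mul_div_assoc', div_le_div_iff₀ (by positivity) (by norm_num)]
    nlinarith
  set τ : ℝ := δ / K with hτ
  have hτ0 : 0 < τ := by positivity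
  have hτδ : τ ≤ δ := div_le_self hδ0.le hK1
  set σ : ℝ := τ / 2 with hσ
  have hσ0 : 0 < σ := by positivity
  set η : ℝ := τ ^ 2 / 4 with hη
  have hη0 : 0 < η := by positivity
  have hσ2 : σ ^ 2 = τ ^ 2 / 4 := by rw [hσ]; ring
  have hu1 : 1 ≤ u := hv0.trans hu
  have hu'1 : 1 ≤ u' := hu1.trans huu
  -- the net
  obtain ⟨M0, hM0⟩ := exists_nat_ge ((u' - u) / η)
  rw [div_le_iff₀ hη0] at hM0
  set M : ℕ := M0 + 1 with hM
  set x : ℕ → ℝ := fun i => min (u + i * η) u' with hxdef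
  have hx0 : x 0 = u := by
    simp only [hxdef, Nat.cast_zero, zero_mul, add_zero]
    exact min_eq_left huu
  have hxM : x M = u' := by
    simp only [hxdef]
    apply min_eq_right
    rw [hM]
    push_cast
    nlinarith
  have hxu : ∀ i, u ≤ x i := fun i => le_min (by
    have : 0 ≤ (i : ℝ) * η := by positivity
    linarith) huu
  have hxu' : ∀ i, x i ≤ u' := fun i => min_le_right _ _
  have hxm : ∀ i, x i ≤ x (i + 1) := by
    intro i
    simp only [hxdef]
    apply min_le_min_right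
    push_cast
    nlinarith
  have hxs : ∀ i, x (i + 1) ≤ x i + η := by
    intro i
    simp only [hxdef]
    rw [← min_add_add_right]
    apply min_le_min
    · push_cast
      linarith
    · linarith
  obtain ⟨n1, hn1⟩ := rv_ge hη0 hu'1
  refine (Whp.all (P := fun i n S ρ G => ∀ t, rv n (x (i + 1)) ≤ rr S ρ t G →
    rr S ρ t G ≤ rv n v0 →
      ∑ a ∈ NN S ρ t G, Ph ((zz S ρ t G a - (y - δ)) / sdv n σ (rv n (x (i + 1))) (rr S ρ t G)) ≤
        (heat F (σ ^ 2 + (x (i + 1) - v0)) (y - δ) + ε / 8) * n) M ?_).mono n1 ?_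
  · intro i _
    exact hf v0 F hv0 ⟨hanti, hF01, L, hL⟩ hAN (x (i + 1)) (y - δ) σ (ε / 8)
      (hu.trans (hxu _)) hσ0 (by positivity)
  intro n hn S ρ G _ _ hall t ht1 ht2
  obtain ⟨hn0, hrvge⟩ := hn1 n hn
  have hnR : (0 : ℝ) < n := by exact_mod_cast hn0
  -- find the interval
  have hex : ∃ i < M, rv n (x (i + 1)) ≤ rr S ρ t G ∧ rr S ρ t G ≤ rv n (x i) := by
    have hPM : rv n (x M) ≤ rr S ρ t G := by rw [hxM]; exact ht1
    have hexj : ∃ j, rv n (x j) ≤ rr S ρ t G := ⟨M, hPM⟩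
    have hj := Nat.find_spec hexj
    have hjM : Nat.find hexj ≤ M := Nat.find_min' hexj hPM
    rcases Nat.eq_zero_or_pos (Nat.find hexj) with h0 | h0
    · rw [h0] at hj
      refine ⟨0, by omega, ?_, ?_⟩
      · refine le_trans (rv_anti n ?_ (hxm 0)) hj
        linarith [hxu 0]
      · rw [hx0]
        exact ht2
    · refine ⟨Nat.find hexj - 1, by omega, ?_, ?_⟩
      · rw [Nat.sub_add_cancel h0]
        exact hj
      · have := Nat.find_min hexj (show Nat.find hexj - 1 < Nat.find hexj by omega)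
        omega
  obtain ⟨i, hiM, hi1, hi2⟩ := hex
  have hv0rr : rr S ρ t G ≤ rv n v0 := ht2.trans (rv_anti n (by linarith) hu)
  have hsum := hall i hiM t hi1 hv0rr
  -- the standard deviation
  have hxi1 : 1 ≤ x i := hu1.trans (hxu i)
  have hxi2 : 1 ≤ x (i + 1) := hu1.trans (hxu _)
  have hr1 : (n : ℝ) / (x (i + 1) + η) ≤ rv n (x (i + 1)) := hrvge _ hxi2 (hxu' _)
  have hr1pos : (0 : ℝ) < rv n (x (i + 1)) := lt_of_lt_of_le (by positivity) hr1
  have hrrpos : (0 : ℝ) < rr S ρ t G := lt_of_lt_of_le hr1pos (by exact_mod_cast hi1)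
  have hA : (n : ℝ) / rv n (x (i + 1)) ≤ x (i + 1) + η := by
    rw [div_le_iff₀ hr1pos]
    rw [div_le_iff₀ (by positivity)] at hr1
    linarith
  have hB : x i ≤ (n : ℝ) / rr S ρ t G := by
    rw [le_div_iff₀ hrrpos]
    have h1 : (rr S ρ t G : ℝ) ≤ rv n (x i) := by exact_mod_cast hi2
    have h2 := h1.trans (rv_le n (show 0 < x i by linarith))
    rw [le_div_iff₀ (by linarith)] at h2
    linarith
  have hC : (n : ℝ) / rr S ρ t G ≤ n / rv n (x (i + 1)) :=
    div_le_div_of_nonneg_left hnR.le hr1pos (by exact_mod_cast hi1)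
  set sd : ℝ := sdv n σ (rv n (x (i + 1))) (rr S ρ t G) with hsd
  have hsd0 : 0 < sd := by
    rw [hsd]
    unfold sdv
    apply Real.sqrt_pos.2
    have : 0 < σ ^ 2 := by positivity
    linarith
  have hsdτ : sd ≤ τ := by
    rw [hsd]
    unfold sdv
    rw [Real.sqrt_le_iff]
    refine ⟨hτ0.le, ?_⟩
    have := hxs i
    have h3 : 0 < τ ^ 2 := by positivity
    rw [hσ2]
    rw [hη] at hA this
    linarith
  -- the count
  set C := (NN S ρ t G).filter (fun a => y ≤ zz S ρ t G a) with hCdef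
  have hcount : (C.card : ℝ) * (1 - ε / 8) ≤
      ∑ a ∈ NN S ρ t G, Ph ((zz S ρ t G a - (y - δ)) / sd) := by
    calc (C.card : ℝ) * (1 - ε / 8) = ∑ a ∈ C, (1 - ε / 8) := by
          rw [Finset.sum_const, nsmul_eq_mul]
      _ ≤ ∑ a ∈ C, Ph ((zz S ρ t G a - (y - δ)) / sd) := by
          apply Finset.sum_le_sum
          intro a ha
          have hay := (Finset.mem_filter.1 ha).2
          refine hPK.trans (hmono ?_)
          rw [le_div_iff₀ hsd0]
          have h1 : K * sd ≤ K * τ := mul_le_mul_of_nonneg_left hsdτ (by linarith)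
          have h2 : K * τ = δ := by
            rw [hτ]
            field_simp
          linarith
      _ ≤ ∑ a ∈ NN S ρ t G, Ph ((zz S ρ t G a - (y - δ)) / sd) := by
          apply Finset.sum_le_sum_of_subset_of_nonneg (Finset.filter_subset _ _)
          intro a _ _
          exact (hPh01 _).1.le
  have hcn : (C.card : ℝ) ≤ n := by
    have h1 : C.card ≤ (univ : Finset (Fin n)).card := Finset.card_le_card (Finset.subset_univ _)
    rw [Finset.card_univ, Fintype.card_fin] at h1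
    exact_mod_cast h1
  -- the heat flow
  have hxv : 0 ≤ x i - v0 := by linarith [hxu i]
  have hheat : heat F (σ ^ 2 + (x (i + 1) - v0)) (y - δ) ≤ E + ε / 4 := by
    have h1 := hPL (σ ^ 2 + (x (i + 1) - v0)) (x i - v0) (y - δ) y
      (by
        have := hxm i
        have h0 : 0 < σ ^ 2 := by positivity
        linarith) hxv
    have h2 := hE (x i) (hxu i) (hxu' i)
    have h3 := (abs_le.1 h1).2
    have h4 : |y - δ - y| = δ := by
      rw [show y - δ - y = -δ by ring, abs_neg, abs_of_pos hδ0]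
    have h5 : |√(σ ^ 2 + (x (i + 1) - v0)) - √(x i - v0)| ≤ τ := by
      have e : σ ^ 2 + (x (i + 1) - v0) = (x i - v0) + (σ ^ 2 + (x (i + 1) - x i)) := by ring
      have hc0 : 0 ≤ σ ^ 2 + (x (i + 1) - x i) := by
        have := hxm i
        have h6 : 0 < σ ^ 2 := by positivity
        linarith
      have h6 : √(x i - v0) ≤ √(σ ^ 2 + (x (i + 1) - v0)) := by
        apply Real.sqrt_le_sqrt
        rw [e]
        linarith
      rw [abs_of_nonneg (by linarith), e]
      have h7 := sqrt_add_le' hxv hc0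
      have h8 : √(σ ^ 2 + (x (i + 1) - x i)) ≤ τ := by
        rw [Real.sqrt_le_iff]
        refine ⟨hτ0.le, ?_⟩
        have := hxs i
        have h9 : 0 < τ ^ 2 := by positivity
        rw [hσ2]
        rw [hη] at this
        linarith
      linarith
    rw [h4] at h3
    have h10 : L * (δ + |√(σ ^ 2 + (x (i + 1) - v0)) - √(x i - v0)|) ≤ ε / 4 := by
      have : L * |√(σ ^ 2 + (x (i + 1) - v0)) - √(x i - v0)| ≤ L * δ :=
        mul_le_mul_of_nonneg_left (h5.trans hτδ) hL0
      rw [mul_add]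
      linarith
    linarith
  have hfin : (C.card : ℝ) * (1 - ε / 8) ≤ (E + ε / 4 + ε / 8) * n := by
    refine hcount.trans (hsum.trans ?_)
    apply mul_le_mul_of_nonneg_right _ hnR.le
    linarith
  show (C.card : ℝ) ≤ (E + ε) * n
  have h11 : (C.card : ℝ) * (ε / 8) ≤ n * (ε / 8) := mul_le_mul_of_nonneg_right hcn (by positivity)
  nlinarith

end

end Pool.Agent.W440.PK
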