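import Pool.Agent.W841.PK.Num

/-! PK-TAIL7: Gaussian tail bounds. -/

set_option autoImplicit false

namespace Pool.Agent.W440.PK

open Finset W841.PK
open scoped Classical

noncomputable section

theorem gd_deriv (x : ℝ) : HasDerivAt gd (-x * gd x) x := by
  have h1 : HasDerivAt (fun x : ℝ => -x ^ 2 / 2) (-x) x := by
    have h := ((hasDerivAt_pow 2 x).neg.div_const 2)
    have e : -(((2 : ℕ) : ℝ) * x ^ (2 - 1)) / 2 = -x := by
      norm_num
      ring
    rw [e] at h
    exact h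
  have h2 := h1.exp.div_const (√(2 * Real.pi))
  have e : Real.exp (-x ^ 2 / 2) * -x / √(2 * Real.pi) = -x * gd x := by
    unfold gd
    ring
  rw [e] at h2
  exact h2

theorem mills (hg : S_Gauss) {a : ℝ} (ha : 0 < a) : Ph (-a) ≤ gd a / a := by
  obtain ⟨hder, hgd, -, -, -, -, hlim, -⟩ := hg
  set q : ℝ → ℝ := fun x => gd x / a - Ph x with hq
  have hqd : ∀ x, HasDerivAt q (-x * gd x / a - gd x) x := fun x =>
    ((gd_deriv x).div_const a).sub (hder x)
  have hmono : MonotoneOn q (Set.Iic (-a)) := by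
    apply monotoneOn_of_deriv_nonneg (convex_Iic _)
    · exact fun x _ => (hqd x).continuousAt.continuousWithinAt
    · exact fun x _ => (hqd x).differentiableAt.differentiableWithinAt
    · intro x hx
      rw [interior_Iic] at hx
      rw [(hqd x).deriv]
      have hx' : x < -a := hx
      have h1 : gd x ≤ -x * gd x / a := by
        rw [le_div_iff₀ ha]
        nlinarith [(hgd x).1]
      linarith
  have hle : ∀ x ≤ -a, -Ph x ≤ q (-a) := by
    intro x hx
    have h1 := hmono (show x ∈ Set.Iic (-a) from hx) (show -a ∈ Set.Iic (-a) from Set.mem_Iic.2 le_rfl) hx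
    have h2 : 0 ≤ gd x / a := div_nonneg (hgd x).1.le ha.le
    have h3 : q x = gd x / a - Ph x := rfl
    linarith
  have h0 : (0 : ℝ) ≤ q (-a) := by
    have ht : Filter.Tendsto (fun x => -Ph x) Filter.atBot (nhds 0) := by
      have := hlim.neg
      rwa [neg_zero] at this
    refine le_of_tendsto ht ?_
    filter_upwards [Filter.eventually_le_atBot (-a)] with x hx
    exact hle x hx
  have h4 : gd (-a) = gd a := by
    unfold gd
    rw [neg_sq]
  simp only [hq, h4] at h0
  linarith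

theorem sqrt_2pi : (5 / 2 : ℝ) ≤ √(2 * Real.pi) := by
  apply Real.le_sqrt_of_sq_le
  have := Real.pi_gt_d4
  norm_num at this ⊢
  linarith

theorem gd_bound {a c : ℝ} (hc : 0 < c) (h : c ≤ Real.exp (a ^ 2 / 2)) : gd a ≤ 2 / 5 / c := by
  unfold gd
  have h1 : Real.exp (-a ^ 2 / 2) ≤ 1 / c := by
    rw [neg_div, Real.exp_neg, ← one_div]
    exact one_div_le_one_div_of_le hc h
  have h2 := sqrt_2pi
  calc Real.exp (-a ^ 2 / 2) / √(2 * Real.pi) ≤ (1 / c) / (5 / 2) := by
        apply div_le_div₀ (by positivity) h1 (by norm_num) h2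
    _ = 2 / 5 / c := by
        field_simp

theorem tail7 (hg : S_Gauss) : S_Tail7 := by
  have he : (2.718 : ℝ) ≤ Real.exp 1 := by
    have := Real.exp_one_gt_d9
    linarith
  constructor
  · have h1 := mills hg (show (0 : ℝ) < 7 by norm_num)
    have h2 : (3 * 10 ^ 10 : ℝ) ≤ Real.exp ((7 : ℝ) ^ 2 / 2) := by
      have e : ((7 : ℝ) ^ 2 / 2) = ((24 : ℕ) : ℝ) * 1 + 1 / 2 := by norm_num
      rw [e, Real.exp_add, Real.exp_nat_mul]
      have h3 : (1 : ℝ) / 2 + 1 ≤ Real.exp (1 / 2) := Real.add_one_le_exp _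
      have h4 : (2.718 : ℝ) ^ 24 ≤ Real.exp 1 ^ 24 := pow_le_pow_left₀ (by norm_num) he _
      calc (3 * 10 ^ 10 : ℝ) ≤ 2.718 ^ 24 * (1 / 2 + 1) := by norm_num
        _ ≤ _ := mul_le_mul h4 h3 (by norm_num) (by positivity)
    have h5 := gd_bound (by norm_num) h2
    have h6 : gd 7 / 7 ≤ 2 / 5 / (3 * 10 ^ 10) / 7 := by
      apply div_le_div_of_nonneg_right h5 (by norm_num)
    refine h1.trans (h6.trans ?_)
    norm_num
  · have h1 := mills hg (show (0 : ℝ) < 69 / 10 by norm_num)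
    have h2 : (3 / 2 * 10 ^ 10 : ℝ) ≤ Real.exp ((69 / 10 : ℝ) ^ 2 / 2) := by
      have e : ((69 / 10 : ℝ) ^ 2 / 2) = ((23 : ℕ) : ℝ) * 1 + 0.805 := by norm_num
      rw [e, Real.exp_add, Real.exp_nat_mul]
      have h3 : (0.805 : ℝ) + 1 ≤ Real.exp 0.805 := Real.add_one_le_exp _
      have h4 : (2.718 : ℝ) ^ 23 ≤ Real.exp 1 ^ 23 := pow_le_pow_left₀ (by norm_num) he _
      calc (3 / 2 * 10 ^ 10 : ℝ) ≤ 2.718 ^ 23 * (0.805 + 1) := by norm_num
        _ ≤ _ := mul_le_mul h4 h3 (by norm_num) (by positivity)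
    have h5 := gd_bound (by norm_num) h2
    have h6 : gd (69 / 10) / (69 / 10) ≤ 2 / 5 / (3 / 2 * 10 ^ 10) / (69 / 10) := by
      apply div_le_div_of_nonneg_right h5 (by norm_num)
    refine h1.trans (h6.trans ?_)
    norm_num

end

end Pool.Agent.W440.PK
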